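import Pool.Agent.Q293.WFPP.Shape2

/-!
MP_d9d0cb_pr, Q1: the negation.

For every dimension `d ≥ 1`, every weight exponent `0 < α < 1`, every positive Lipschitz `f₀` and
every `χ > 1`, the event `E(χ, t₀)` has probability zero for every `t₀`. When `3/5 < α < 1` the
interval `(1, 2 / (5 (1 - α)))` is not empty, so the assertion of Q1 fails there for every
dimension. The limit shape exists in dimension one, it is `[-1, 1]`, so Q1 is false.

Reason: on `E(χ, t₀)` with `χ > 1` the passage times satisfy `T(0, v) - D(0, v) → 0` as `v` tends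
to infinity along a coordinate axis, and `D(0, v)` is not random. Each path leaves `0` through one
of finitely many edges, and lowering the time of such an edge lowers infinitely many of the
passage times by a fixed amount. So the event meets each line in the direction of that edge
variable at most once, and it is null because the exponential law has no atoms.
-/

namespace Pool.Agent.Results.MP_d9d0cb_pr.NoRateAboveOne

open MeasureTheory ProbabilityTheory Filter
open Pool.Agent.Q293.WFPP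

theorem event_null {d : ℕ} (hd : 1 ≤ d) {A : Set (Pt d)} (hA : IsLimitShape d A) {α : ℝ}
    (h0 : 0 < α) (h1 : α < 1) {f₀ : Pt d → ℝ} (hf : Admissible f₀) {χ : ℝ} (hχ : 1 < χ) (t₀ : ℝ) :
    law d (E A α f₀ χ t₀) = 0 := by
  have i0 : Fin d := ⟨0, hd⟩
  have h2 : E A α f₀ χ t₀ ⊆ {Y | ∀ e, 0 ≤ Y e}ᶜ ∪ {Y : Sym2 (Site d) → ℝ | (∀ e, 0 ≤ Y e) ∧
      Tendsto (fun n : ℕ => T (wt α f₀) Y (ev i0 n) -
        (D A (wt α f₀) 0 (toPt (ev i0 n))).toReal) atTop (nhds 0)} := by
    intro Y hY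
    by_cases hn : ∀ e, 0 ≤ Y e
    · exact Or.inr ⟨hn, event_tendsto hA h0 h1 hf hχ hY i0⟩
    · exact Or.inl hn
  refine measure_mono_null h2 (measure_union_null (law_neg_null d) ?_)
  exact S_null (fun x y h => wt_mid_pos hf x y h)
    (fun n => (D A (wt α f₀) 0 (toPt (ev i0 n))).toReal) i0

theorem no_rate {d : ℕ} (hd : 1 ≤ d) {A : Set (Pt d)} (hA : IsLimitShape d A) {α : ℝ}
    (h0 : 0 < α) (h1 : α < 1) {f₀ : Pt d → ℝ} (hf : Admissible f₀) {χ : ℝ} (hχ : 1 < χ)
    {s : ℝ} (hs : 0 < s) :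
    ¬ Tendsto (fun t₀ : ℝ => t₀ ^ s * (1 - (law d (E A α f₀ χ t₀)).toReal)) atTop (nhds 0) := by
  have h2 : (fun t₀ : ℝ => t₀ ^ s * (1 - (law d (E A α f₀ χ t₀)).toReal)) =
      fun t₀ : ℝ => t₀ ^ s := by
    funext t₀
    rw [event_null hd hA h0 h1 hf hχ t₀]
    simp
  rw [h2]
  exact not_tendsto_nhds_of_tendsto_atTop (tendsto_rpow_atTop hs) 0

/-- The negation of Q1, for every dimension and every weight with `3/5 < α < 1`. -/
theorem result :
    (∀ d : ℕ, 1 ≤ d → ∀ A : Set (Pt d), IsLimitShape d A → ∀ α : ℝ, 0 < α → α < 1 →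
      ∀ f₀ : Pt d → ℝ, Admissible f₀ → ∀ χ : ℝ, 1 < χ →
        (∀ t₀ : ℝ, law d (E A α f₀ χ t₀) = 0) ∧
        ∀ s : ℝ, 0 < s → ¬ Tendsto
          (fun t₀ : ℝ => t₀ ^ s * (1 - (law d (E A α f₀ χ t₀)).toReal)) atTop (nhds 0)) ∧
    (∀ α : ℝ, 3 / 5 < α → α < 1 → 1 < 2 / (5 * (1 - α))) ∧
    IsLimitShape 1 (Metric.closedBall (0 : Pt 1) 1) ∧
    ¬ Q1 := by
  have hint : ∀ α : ℝ, 3 / 5 < α → α < 1 → 1 < 2 / (5 * (1 - α)) := by
    intro α h2 h3
    rw [lt_div_iff₀ (by linarith)]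
    linarith
  refine ⟨?_, hint, isLimitShape_one, ?_⟩
  · intro d hd A hA α h0 h1 f₀ hf χ hχ
    exact ⟨fun t₀ => event_null hd hA h0 h1 hf hχ t₀, fun s hs => no_rate hd hA h0 h1 hf hχ hs⟩
  · intro hQ
    have hadm : Admissible (fun _ : Pt 1 => (1 : ℝ)) :=
      ⟨fun _ _ => one_pos, 0, (LipschitzWith.const 1).lipschitzOnWith⟩
    have h := hQ 1 le_rfl _ isLimitShape_one (4 / 5) (by norm_num) _ hadm (3 / 2) (by norm_num)
      (by norm_num) 1 one_pos
    exact no_rate le_rfl isLimitShape_one (by norm_num) (by norm_num) hadm (by norm_num) one_pos h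

end Pool.Agent.Results.MP_d9d0cb_pr.NoRateAboveOne
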